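import Pool.Agent.Helper93.TL7.Row
import Pool.Agent.Helper14.TL7.Lists1

/-!
# Project TL (levels `4·7^n`): the rows of `T_3`, `T_5`, `T_11`, `T_13`
-/

set_option autoImplicit false

namespace Pool.Agent.Helper93.TL7

open Pool.Agent.Helper84.S7 (S7Trm)
open Pool.Agent.Helper14.TL7

/-- The rows of `T_3`. -/
theorem hHk3 (hf : THkF) (ht : TTre) (hm : S7Trm) : THk 3 T3L := fun r s G hG i =>
  rows7 hf ht hm 3 (by norm_num) (by norm_num) (by norm_num)
    [-2, 0, 2]
    (by decide +kernel) rfl (by decide +kernel) (by decide +kernel) T3L (by decide +kernel) (by decide +kernel) r s G hG i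

/-- The rows of `T_5`. -/
theorem hHk5 (hf : THkF) (ht : TTre) (hm : S7Trm) : THk 5 T5L := fun r s G hG i =>
  rows7 hf ht hm 5 (by norm_num) (by norm_num) (by norm_num)
    [-4, -2, 0, 2, 4]
    (by decide +kernel) rfl (by decide +kernel) (by decide +kernel) T5L (by decide +kernel) (by decide +kernel) r s G hG i

/-- The rows of `T_11`. -/
theorem hHk11 (hf : THkF) (ht : TTre) (hm : S7Trm) : THk 11 T11L := fun r s G hG i =>
  rows7 hf ht hm 11 (by norm_num) (by norm_num) (by norm_num)
    [-10, -8, -6, -4, -2, 0, 2, 4, 6, 8, 10]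
    (by decide +kernel) rfl (by decide +kernel) (by decide +kernel) T11L (by decide +kernel) (by decide +kernel) r s G hG i

/-- The rows of `T_13`. -/
theorem hHk13 (hf : THkF) (ht : TTre) (hm : S7Trm) : THk 13 T13L := fun r s G hG i =>
  rows7 hf ht hm 13 (by norm_num) (by norm_num) (by norm_num)
    [-12, -10, -8, -6, -4, -2, 0, 2, 4, 6, 8, 10, 12]
    (by decide +kernel) rfl (by decide +kernel) (by decide +kernel) T13L (by decide +kernel) (by decide +kernel) r s G hG i

end Pool.Agent.Helper93.TL7
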