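import Pool.Agent.Helper93.TL7.Row
import Pool.Agent.Helper14.TL7.Lists3

/-!
# Project TL (levels `4·7^n`): the rows of `T_37`
-/

set_option autoImplicit false

namespace Pool.Agent.Helper93.TL7

open Pool.Agent.Helper84.S7 (S7Trm)
open Pool.Agent.Helper14.TL7

/-- The rows of `T_37`. -/
theorem hHk37 (hf : THkF) (ht : TTre) (hm : S7Trm) : THk 37 T37L := fun r s G hG i =>
  rows7 hf ht hm 37 (by norm_num) (by norm_num) (by norm_num)
    [-36, -34, -32, -30, -28, -26, -24, -22, -20, -18, -16, -14, -12, -10, -8, -6, -4, -2, 0, 2, 4, 6, 8, 10, 12, 14, 16, 18, 20, 22, 24, 26, 28, 30, 32, 34, 36]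
    (by decide +kernel) rfl (by decide +kernel) (by decide +kernel) T37L (by decide +kernel) (by decide +kernel) r s G hG i

end Pool.Agent.Helper93.TL7
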