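import Pool.Agent.Helper14.TL7.StD

/-!
# Project TL (levels `4·7^n`), module HkF: Hecke formula on the plane, with signs
-/

set_option autoImplicit false

namespace Pool.Agent.Helper93.TL7

open Pool.Agent.Helper4.TL Pool.Agent.Helper14.TL7 Pool.Agent.Helper76.TL7
open Pool.Agent.Helper14.CV (Homog EqC act Tl)
open Pool.Agent.Helper84.S7 (tr7)
open Pool.Agent.Helper76.S7 (edge7 rY7 Pl7 S7PlA)

open Matrix

private theorem dvd_mul3 (l : ℤ) (A B C : Matrix (Fin 2) (Fin 2) ℤ) (h : ∀ i j, l ∣ B i j) :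
    ∀ i j, l ∣ (A * B * C) i j := by
  intro i j
  rw [Matrix.mul_apply]
  refine Finset.dvd_sum fun k _ => ?_
  rw [Matrix.mul_apply]
  exact Dvd.dvd.mul_right (Finset.dvd_sum fun m _ => Dvd.dvd.mul_left (h m k) _) _

private theorem key (l : ℤ) (h h' gi N N' : Matrix (Fin 2) (Fin 2) ℤ) (h1 : h.det = 1)
    (h2 : h'.det = 1) (h3 : gi.det = 1)
    (H : ∀ i j, l ∣ (h * N * gi * (h' * N' * gi).adjugate) i j) :
    ∀ i j, l ∣ (N * N'.adjugate) i j := by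
  have e1 : gi * gi.adjugate = 1 := by rw [Matrix.mul_adjugate, h3, one_smul]
  have e2 : h.adjugate * h = 1 := by rw [Matrix.adjugate_mul, h1, one_smul]
  have e3 : h'.adjugate * h' = 1 := by rw [Matrix.adjugate_mul, h2, one_smul]
  have e4 : h.adjugate * (h * N * gi * (h' * N' * gi).adjugate) * h' = N * N'.adjugate := by
    rw [Matrix.adjugate_mul_distrib, Matrix.adjugate_mul_distrib]
    calc h.adjugate * (h * N * gi * (gi.adjugate * (N'.adjugate * h'.adjugate))) * h'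
        = (h.adjugate * h) * N * (gi * gi.adjugate) * N'.adjugate * (h'.adjugate * h') := by
          simp only [Matrix.mul_assoc]
      _ = N * N'.adjugate := by
          rw [e1, e2, e3, Matrix.one_mul, Matrix.mul_one, Matrix.mul_one]
  rw [← e4]
  exact dvd_mul3 l _ _ _ H

/-- standard matrix -/
private def sm (X Y d : ℤ) : Matrix (Fin 2) (Fin 2) ℤ := !![1, X; 7 * Y, d]

/-- its inverse -/
private def si (X Y d : ℤ) : Matrix (Fin 2) (Fin 2) ℤ := !![d, -X; -(7 * Y), 1]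

private theorem sm_det (X Y d : ℤ) (h : d - 7 * X * Y = 1) : (sm X Y d).det = 1 := by
  rw [sm, Matrix.det_fin_two_of]
  linear_combination h

private theorem si_det (X Y d : ℤ) (h : d - 7 * X * Y = 1) : (si X Y d).det = 1 := by
  rw [si, Matrix.det_fin_two_of]
  linear_combination h

private def DJ (X' Y' d' X Y d j l : ℤ) : Matrix (Fin 2) (Fin 2) ℤ :=
  sm X' Y' d' * !![1, j; 0, l] * si X Y d

private def DI (X' Y' d' X Y d l : ℤ) : Matrix (Fin 2) (Fin 2) ℤ :=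
  sm X' Y' d' * !![l, 0; 0, 1] * si X Y d

private theorem DJ_eq (X' Y' d' X Y d j l : ℤ) : DJ X' Y' d' X Y d j l =
    !![d - (j + X' * l) * (7 * Y), -X + (j + X' * l);
       7 * Y' * d - (7 * Y' * j + d' * l) * (7 * Y),
       -(7 * Y') * X + (7 * Y' * j + d' * l)] := by
  rw [DJ, sm, si]
  ext i k
  fin_cases i <;> fin_cases k <;> simp [Matrix.mul_apply, Fin.sum_univ_two] <;> ring

private theorem DI_eq (X' Y' d' X Y d l : ℤ) : DI X' Y' d' X Y d l =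
    !![l * d - X' * (7 * Y), -(l * X) + X';
       7 * Y' * l * d - d' * (7 * Y), -(7 * Y' * l) * X + d'] := by
  rw [DI, sm, si]
  ext i k
  fin_cases i <;> fin_cases k <;> simp [Matrix.mul_apply, Fin.sum_univ_two] <;> ring

private theorem dvd_five_pow (r : ℕ) (z : ℤ) (h : ((z : ℤ) : ZMod (7 ^ r)) = 0) :
    (7 : ℤ) ^ r ∣ z := by
  have h1 : ((7 ^ r : ℕ) : ℤ) ∣ z := (ZMod.intCast_zmod_eq_zero_iff_dvd z (7 ^ r)).1 h
  push_cast at h1
  exact h1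

private theorem dvd_five_pow_succ (r : ℕ) (z : ℤ) (h : ((z : ℤ) : ZMod (7 ^ r)) = 0) :
    (7 : ℤ) ^ (r + 1) ∣ 7 * z := by
  rw [pow_succ, mul_comm]
  exact mul_dvd_mul_left 7 (dvd_five_pow r z h)

private theorem isUnit_one_sub_five (s : ℕ) (z : ZMod (7 ^ s)) : IsUnit (1 - 7 * z) := by
  apply IsNilpotent.isUnit_one_sub
  refine ⟨s, ?_⟩
  have h : ((7 : ZMod (7 ^ s)) ^ s) = 0 := by
    have := ZMod.natCast_self (7 ^ s)
    push_cast at this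
    exact this
  rw [mul_pow, h, zero_mul]

private theorem tr_inf {R : Type} (r s l : ℕ) (F : ZMod (7 ^ r) → ZMod (7 ^ s) → R)
    (x : ZMod (7 ^ r)) (y : ZMod (7 ^ s)) :
    tr7 1 0 0 (l : ℤ) F x y = F ((l : ZMod (7 ^ r)) * x) (y * (l : ZMod (7 ^ s))⁻¹) := by
  unfold tr7
  have e1 : (((0 : ℤ) : ZMod (7 ^ r)) + (((l : ℕ) : ℤ) : ZMod (7 ^ r)) * x) = (l : ZMod (7 ^ r)) * x := by
    push_cast
    ring
  have e2 : (((1 : ℤ) : ZMod (7 ^ r)) + 7 * ((0 : ℤ) : ZMod (7 ^ r)) * x) = 1 := by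
    push_cast
    ring
  have e3 : (((0 : ℤ) : ZMod (7 ^ s)) + ((1 : ℤ) : ZMod (7 ^ s)) * y) = y := by
    push_cast
    ring
  have e4 : ((((l : ℕ) : ℤ) : ZMod (7 ^ s)) + 7 * ((0 : ℤ) : ZMod (7 ^ s)) * y) = (l : ZMod (7 ^ s)) := by
    push_cast
    ring
  rw [e1, e2, e3, e4, ZMod.inv_one, mul_one]

private theorem tr_j {R : Type} (r s l : ℕ) (j : ℤ) (F : ZMod (7 ^ r) → ZMod (7 ^ s) → R)
    (x : ZMod (7 ^ r)) (y : ZMod (7 ^ s)) :
    tr7 (l : ℤ) (-j) 0 1 F x y = F ((x - (j : ZMod (7 ^ r))) * (l : ZMod (7 ^ r))⁻¹)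
      ((l : ZMod (7 ^ s)) * y * (1 - 7 * (j : ZMod (7 ^ s)) * y)⁻¹) := by
  unfold tr7
  have e1 : (((-j : ℤ) : ZMod (7 ^ r)) + ((1 : ℤ) : ZMod (7 ^ r)) * x) = x - (j : ZMod (7 ^ r)) := by
    push_cast
    ring
  have e2 : ((((l : ℕ) : ℤ) : ZMod (7 ^ r)) + 7 * ((0 : ℤ) : ZMod (7 ^ r)) * x) = (l : ZMod (7 ^ r)) := by
    push_cast
    ring
  have e3 : (((0 : ℤ) : ZMod (7 ^ s)) + (((l : ℕ) : ℤ) : ZMod (7 ^ s)) * y) = (l : ZMod (7 ^ s)) * y := by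
    push_cast
    ring
  have e4 : (((1 : ℤ) : ZMod (7 ^ s)) + 7 * ((-j : ℤ) : ZMod (7 ^ s)) * y) =
      1 - 7 * (j : ZMod (7 ^ s)) * y := by
    push_cast
    ring
  rw [e1, e2, e3, e4]

/-- sign of a matrix -/
private def ep (M : Matrix (Fin 2) (Fin 2) ℤ) : ℤ := eps (M 0 0) (M 0 1) (M 1 0) (M 1 1)

private theorem ep_mul (A B : Matrix (Fin 2) (Fin 2) ℤ) (hA : ¬ (2 : ℤ) ∣ A.det)
    (hB : ¬ (2 : ℤ) ∣ B.det) : ep (A * B) = ep A * ep B := by
  rw [Matrix.det_fin_two] at hA hB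
  unfold ep
  rw [← eps_mul hA hB]
  simp only [Matrix.mul_apply, Fin.sum_univ_two]

private theorem ep_si (X Y d : ℤ) : ep (si X Y d) = ep (sm X Y d) :=
  eps_adj (a := 1) (b := X) (c := 7 * Y) (d := d)

private theorem ep_sq (M : Matrix (Fin 2) (Fin 2) ℤ) : ep M * ep M = 1 := eps_sq _ _ _ _

private theorem two_one : ¬ (2 : ℤ) ∣ 1 := by decide

private theorem ep_DJ (X' Y' d' X Y d j l : ℤ) (h' : d' - 7 * X' * Y' = 1)
    (h : d - 7 * X * Y = 1) (hl : ¬ (2 : ℤ) ∣ l) :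
    ep (sm X Y d) * ep (DJ X' Y' d' X Y d j l) = eps 1 j 0 l * ep (sm X' Y' d') := by
  have hm : (!![1, j; 0, l] : Matrix (Fin 2) (Fin 2) ℤ).det = l := by
    rw [Matrix.det_fin_two_of]; ring
  have e0 : ep !![1, j; 0, l] = eps 1 j 0 l := rfl
  have o1 : ¬ (2 : ℤ) ∣ (sm X' Y' d').det := by rw [sm_det _ _ _ h']; exact two_one
  have o2 : ¬ (2 : ℤ) ∣ (!![1, j; 0, l] : Matrix (Fin 2) (Fin 2) ℤ).det := by rw [hm]; exact hl
  have o3 : ¬ (2 : ℤ) ∣ (si X Y d).det := by rw [si_det _ _ _ h]; exact two_one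
  have o4 : ¬ (2 : ℤ) ∣ (sm X' Y' d' * !![1, j; 0, l]).det := by
    rw [Matrix.det_mul, sm_det _ _ _ h', hm, one_mul]; exact hl
  rw [DJ, ep_mul _ _ o4 o3, ep_mul _ _ o1 o2, ep_si, e0]
  linear_combination (ep (sm X' Y' d') * eps 1 j 0 l) * ep_sq (sm X Y d)

private theorem ep_DI (X' Y' d' X Y d l : ℤ) (h' : d' - 7 * X' * Y' = 1)
    (h : d - 7 * X * Y = 1) (hl : ¬ (2 : ℤ) ∣ l) :
    ep (sm X Y d) * ep (DI X' Y' d' X Y d l) = ep (sm X' Y' d') := by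
  have hm : (!![l, 0; 0, 1] : Matrix (Fin 2) (Fin 2) ℤ).det = l := by
    rw [Matrix.det_fin_two_of]; ring
  have e0 : ep !![l, 0; 0, 1] = 1 := eps_id (a := l) (d := 1) (dvd_zero 2) (dvd_zero 2)
  have o1 : ¬ (2 : ℤ) ∣ (sm X' Y' d').det := by rw [sm_det _ _ _ h']; exact two_one
  have o2 : ¬ (2 : ℤ) ∣ (!![l, 0; 0, 1] : Matrix (Fin 2) (Fin 2) ℤ).det := by rw [hm]; exact hl
  have o3 : ¬ (2 : ℤ) ∣ (si X Y d).det := by rw [si_det _ _ _ h]; exact two_one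
  have o4 : ¬ (2 : ℤ) ∣ (sm X' Y' d' * !![l, 0; 0, 1]).det := by
    rw [Matrix.det_mul, sm_det _ _ _ h', hm, one_mul]; exact hl
  rw [DI, ep_mul _ _ o4 o3, ep_mul _ _ o1 o2, ep_si, e0]
  linear_combination (ep (sm X' Y' d')) * ep_sq (sm X Y d)

private theorem edgeE_eq {R : Type} [AddCommGroup R] {q q' : ℕ} (u1 u2 v1 v2 : ℤ)
    (G : ℤ → ℤ → R) (x : ZMod q) (y : ZMod q') :
    edgeE7 0 u1 u2 v1 v2 G x y =
      ep (sm (x.val : ℤ) (rY7 0 x y) (1 + 7 ^ (0 + 1) * (x.val : ℤ) * rY7 0 x y)) •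
        edge7 0 u1 u2 v1 v2 G x y := by
  unfold edgeE7
  rw [pow_zero, one_mul]
  rfl

theorem hHkF (hHkB : THkB) (_he : EEdg7) (hPlA : S7PlA) : THkF := by
  intro R _ r s l G J hl hl2 hl22 hG hJ hJ' u1 u2 v1 v2 hu hv x y
  have hlo : ¬ (2 : ℤ) ∣ (l : ℤ) := by
    intro h2
    have h3 : (2 : ℕ) ∣ l := by exact_mod_cast h2
    exact hl22 ((Nat.prime_dvd_prime_iff_eq Nat.prime_two hl).1 h3).symm
  have hodd : Nat.Coprime l 7 := by
    rw [Nat.coprime_primes hl (by norm_num)]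
    exact hl2
  have hlr : (l : ZMod (7 ^ r)) * (l : ZMod (7 ^ r))⁻¹ = 1 :=
    ZMod.coe_mul_inv_eq_one l (Nat.Coprime.pow_right r hodd)
  have hls : (l : ZMod (7 ^ s)) * (l : ZMod (7 ^ s))⁻¹ = 1 :=
    ZMod.coe_mul_inv_eq_one l (Nat.Coprime.pow_right s hodd)
  have hl0 : (l : ℤ) ≠ 0 := by exact_mod_cast hl.ne_zero
  -- the matrix g
  set X : ℤ := (x.val : ℤ) with hX
  set Y : ℤ := rY7 0 x y with hY
  set d : ℤ := 1 + 7 ^ (0 + 1) * X * Y with hd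
  obtain ⟨g1, g2, g3⟩ := hPlA 0 r s x y
  rw [← hX, ← hY, ← hd] at g1 g3
  rw [← hX] at g2
  have hdet : d - 7 * X * Y = 1 := by rw [hd]; ring
  -- the matrices g_j and g_∞
  set xj : ℤ → ZMod (7 ^ r) := fun j => (x - ((j : ℤ) : ZMod (7 ^ r))) * (l : ZMod (7 ^ r))⁻¹ with hxj
  set yj : ℤ → ZMod (7 ^ s) := fun j => (l : ZMod (7 ^ s)) * y *
    (1 - 7 * ((j : ℤ) : ZMod (7 ^ s)) * y)⁻¹ with hyj
  set Xj : ℤ → ℤ := fun j => ((xj j).val : ℤ) with hXj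
  set Yj : ℤ → ℤ := fun j => rY7 0 (xj j) (yj j) with hYj
  set dj : ℤ → ℤ := fun j => 1 + 7 ^ (0 + 1) * Xj j * Yj j with hdj
  set xi : ZMod (7 ^ r) := (l : ZMod (7 ^ r)) * x with hxi
  set yi : ZMod (7 ^ s) := y * (l : ZMod (7 ^ s))⁻¹ with hyi
  set Xi : ℤ := ((xi).val : ℤ) with hXi
  set Yi : ℤ := rY7 0 xi yi with hYi
  set di : ℤ := 1 + 7 ^ (0 + 1) * Xi * Yi with hdi
  have hdetj : ∀ j, dj j - 7 * Xj j * Yj j = 1 := by intro j; rw [hdj]; ring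
  have hdeti : di - 7 * Xi * Yi = 1 := by rw [hdi]; ring
  have pj : ∀ j, ((Xj j : ℤ) : ZMod (7 ^ r)) = xj j ∧ ((Yj j : ℤ) : ZMod (7 ^ s)) = yj j * ((dj j : ℤ) : ZMod (7 ^ s)) := by
    intro j
    obtain ⟨_, h2, h3⟩ := hPlA 0 r s (xj j) (yj j)
    exact ⟨by rw [Int.cast_one, mul_one] at h2; exact h2, h3⟩
  have pi' : ((Xi : ℤ) : ZMod (7 ^ r)) = xi ∧ ((Yi : ℤ) : ZMod (7 ^ s)) = yi * ((di : ℤ) : ZMod (7 ^ s)) := by
    obtain ⟨_, h2, h3⟩ := hPlA 0 r s xi yi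
    exact ⟨by rw [Int.cast_one, mul_one] at h2; exact h2, h3⟩
  have pg : ((X : ℤ) : ZMod (7 ^ r)) = x ∧ ((Y : ℤ) : ZMod (7 ^ s)) = y * ((d : ℤ) : ZMod (7 ^ s)) :=
    ⟨by rw [Int.cast_one, mul_one] at g2; exact g2, g3⟩
  -- congruences
  have cj1 : ∀ j : ℤ, (7 : ℤ) ^ r ∣ j + Xj j * l - X := by
    intro j
    apply dvd_five_pow
    push_cast
    rw [(pj j).1, pg.1, hxj]
    linear_combination (x - (j : ZMod (7 ^ r))) * hlr
  have cj2 : ∀ j : ℤ, (7 : ℤ) ^ (s + 1) ∣ 7 * (Yj j * d - (7 * Yj j * j + dj j * l) * Y) := by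
    intro j
    apply dvd_five_pow_succ
    have hu := ZMod.mul_inv_of_unit _ (isUnit_one_sub_five s ((j : ZMod (7 ^ s)) * y))
    rw [← mul_assoc] at hu
    have h3 : ((Yj j : ℤ) : ZMod (7 ^ s)) * (1 - 7 * (j : ZMod (7 ^ s)) * y) =
        (l : ZMod (7 ^ s)) * y * ((dj j : ℤ) : ZMod (7 ^ s)) := by
      rw [(pj j).2, hyj]
      linear_combination ((l : ZMod (7 ^ s)) * y * ((dj j : ℤ) : ZMod (7 ^ s))) * hu
    have h4 := pg.2
    have e : ((Yj j * d - (7 * Yj j * j + dj j * l) * Y : ℤ) : ZMod (7 ^ s)) =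
        ((Yj j : ℤ) : ZMod (7 ^ s)) * ((d : ℤ) : ZMod (7 ^ s)) -
          (7 * ((Yj j : ℤ) : ZMod (7 ^ s)) * (j : ZMod (7 ^ s)) +
            ((dj j : ℤ) : ZMod (7 ^ s)) * (l : ZMod (7 ^ s))) * ((Y : ℤ) : ZMod (7 ^ s)) := by
      push_cast
      ring
    rw [e, h4]
    linear_combination ((d : ℤ) : ZMod (7 ^ s)) * h3
  have ci1 : (7 : ℤ) ^ r ∣ Xi - l * X := by
    apply dvd_five_pow
    push_cast
    rw [pi'.1, pg.1, hxi]
    ring
  have ci2 : (7 : ℤ) ^ (s + 1) ∣ 7 * (Yi * l * d - di * Y) := by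
    apply dvd_five_pow_succ
    have e : ((Yi * l * d - di * Y : ℤ) : ZMod (7 ^ s)) =
        ((Yi : ℤ) : ZMod (7 ^ s)) * (l : ZMod (7 ^ s)) * ((d : ℤ) : ZMod (7 ^ s)) -
          ((di : ℤ) : ZMod (7 ^ s)) * ((Y : ℤ) : ZMod (7 ^ s)) := by
      push_cast
      ring
    rw [e, pi'.2, pg.2, hyi]
    linear_combination (y * ((di : ℤ) : ZMod (7 ^ s)) * ((d : ℤ) : ZMod (7 ^ s))) * hls
  -- the family
  let e : Fin l ≃ J := (Finset.equivFinOfCardEq hJ).symm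
  let δ : Fin (l + 1) → Matrix (Fin 2) (Fin 2) ℤ := Fin.cons (DI Xi Yi di X Y d l)
    (fun i => DJ (Xj (e i)) (Yj (e i)) (dj (e i)) X Y d (e i) l)
  have hδ0 : δ 0 = DI Xi Yi di X Y d l := rfl
  have hδs : ∀ i : Fin l, δ i.succ = DJ (Xj (e i)) (Yj (e i)) (dj (e i)) X Y d (e i) l := fun i => rfl
  have hDJ : ∀ j : ℤ, (DJ (Xj j) (Yj j) (dj j) X Y d j l).det = l ∧
      (7 : ℤ) ^ r ∣ (DJ (Xj j) (Yj j) (dj j) X Y d j l) 0 1 ∧
      (7 : ℤ) ^ (s + 1) ∣ (DJ (Xj j) (Yj j) (dj j) X Y d j l) 1 0 := by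
    intro j
    refine ⟨?_, ?_, ?_⟩
    · rw [DJ, Matrix.det_mul, Matrix.det_mul, sm_det _ _ _ (hdetj j), si_det _ _ _ hdet,
        Matrix.det_fin_two_of]
      ring
    · rw [DJ_eq]
      have := cj1 j
      convert this using 1
      simp
      ring
    · rw [DJ_eq]
      have := cj2 j
      convert this using 1
      simp
      ring
  have hDI : (DI Xi Yi di X Y d l).det = l ∧
      (7 : ℤ) ^ r ∣ (DI Xi Yi di X Y d l) 0 1 ∧
      (7 : ℤ) ^ (s + 1) ∣ (DI Xi Yi di X Y d l) 1 0 := by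
    refine ⟨?_, ?_, ?_⟩
    · rw [DI, Matrix.det_mul, Matrix.det_mul, sm_det _ _ _ hdeti, si_det _ _ _ hdet,
        Matrix.det_fin_two_of]
      ring
    · rw [DI_eq]
      convert ci1 using 1
      simp
      ring
    · rw [DI_eq]
      convert ci2 using 1
      simp
      ring
  have hpair : ∀ P P', P ≠ P' → ¬ ∀ i j, (l : ℤ) ∣ (δ P * (δ P').adjugate) i j := by
    have hl1 : ¬ (l : ℤ) ∣ 1 := by
      intro h
      have := Int.natCast_dvd_natCast.1 (by exact_mod_cast h : ((l : ℕ) : ℤ) ∣ ((1 : ℕ) : ℤ))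
      exact hl.one_lt.ne' (Nat.dvd_one.1 this)
    intro P P' hne H
    induction P using Fin.cases with
    | zero =>
      induction P' using Fin.cases with
      | zero => exact hne rfl
      | succ i' =>
        rw [hδ0, hδs] at H
        have := key l _ _ _ _ _ (sm_det _ _ _ hdeti) (sm_det _ _ _ (hdetj (e i'))) (si_det _ _ _ hdet) H 1 1
        apply hl1
        simpa [Matrix.adjugate_fin_two_of, Matrix.mul_apply, Fin.sum_univ_two] using this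
    | succ i =>
      induction P' using Fin.cases with
      | zero =>
        rw [hδ0, hδs] at H
        have := key l _ _ _ _ _ (sm_det _ _ _ (hdetj (e i))) (sm_det _ _ _ hdeti) (si_det _ _ _ hdet) H 0 0
        apply hl1
        simpa [Matrix.adjugate_fin_two_of, Matrix.mul_apply, Fin.sum_univ_two] using this
      | succ i' =>
        rw [hδs, hδs] at H
        have h1 := key l _ _ _ _ _ (sm_det _ _ _ (hdetj (e i))) (sm_det _ _ _ (hdetj (e i')))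
          (si_det _ _ _ hdet) H 0 1
        have h2 : (l : ℤ) ∣ (e i : ℤ) - (e i' : ℤ) := by
          have e3 : (!![1, (e i : ℤ); 0, (l : ℤ)] * (!![1, (e i' : ℤ); 0, (l : ℤ)]).adjugate) 0 1 =
              (e i : ℤ) - (e i' : ℤ) := by
            simp [Matrix.adjugate_fin_two_of, Matrix.mul_apply, Fin.sum_univ_two]
            ring
          rw [← e3]
          exact h1
        have h5 := hJ' _ (e i).2 _ (e i').2 h2
        apply hne
        congr 1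
        exact e.injective (Subtype.ext h5)
  have hB := (hHkB R _ r (s + 1) l G hl hl2 hl22 hG).2 δ
    (by
      intro P
      induction P using Fin.cases with
      | zero => rw [hδ0]; exact hDI.1
      | succ i => rw [hδs]; exact (hDJ _).1)
    (by
      intro P
      induction P using Fin.cases with
      | zero => rw [hδ0]; exact hDI.2.1
      | succ i => rw [hδs]; exact (hDJ _).2.1)
    (by
      intro P
      induction P using Fin.cases with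
      | zero => rw [hδ0]; exact hDI.2.2
      | succ i => rw [hδs]; exact (hDJ _).2.2)
    hpair
  have hg : ∀ w1 w2 : ℤ, (w1 ≠ 0 ∨ w2 ≠ 0) →
      (w1 + 7 ^ 0 * X * w2 : ℤ) ≠ 0 ∨ (7 * Y * w1 + d * w2 : ℤ) ≠ 0 := by
    intro w1 w2 hw
    by_contra hcon
    push Not at hcon
    obtain ⟨k1, k2⟩ := hcon
    have k3 : w2 = 0 := by linear_combination k2 - 7 * Y * k1 - w2 * hdet
    have k4 : w1 = 0 := by linear_combination k1 - X * k3
    rcases hw with hw | hw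
    · exact hw k4
    · exact hw k3
  have hdiff := hB.diff (hg u1 u2 hu) (hg v1 v2 hv)
  have hleft : edge7 0 u1 u2 v1 v2 (Tl l (2 * 7 ^ r) G) x y =
      Tl l (2 * 7 ^ r) G (u1 + 7 ^ 0 * X * u2) (7 * Y * u1 + d * u2) -
      Tl l (2 * 7 ^ r) G (v1 + 7 ^ 0 * X * v2) (7 * Y * v1 + d * v2) := rfl
  rw [edgeE_eq, ← hX, ← hY, ← hd, hleft, ← hdiff, ← Finset.sum_sub_distrib, Finset.smul_sum,
    Fin.sum_univ_succ]
  congr 1
  · -- the term at infinity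
    rw [tr_inf, ← hxi, ← hyi, edgeE_eq, ← hXi, ← hYi, ← hdi]
    have hr : edge7 0 (l * u1) u2 (l * v1) v2 G xi yi =
      G ((l : ℤ) * u1 + 7 ^ 0 * Xi * u2) (7 * Yi * ((l : ℤ) * u1) + di * u2) -
      G ((l : ℤ) * v1 + 7 ^ 0 * Xi * v2) (7 * Yi * ((l : ℤ) * v1) + di * v2) := rfl
    have hs : eps (δ 0 0 0) (δ 0 0 1) (δ 0 1 0) (δ 0 1 1) = ep (DI Xi Yi di X Y d l) := rfl
    rw [hr, hs, ← smul_sub, smul_smul, ep_DI _ _ _ _ _ _ _ hdeti hdet hlo, hδ0, DI_eq]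
    have k : ∀ w1 w2 : ℤ, G ((!![(l : ℤ) * d - Xi * (7 * Y), -((l : ℤ) * X) + Xi;
        7 * Yi * (l : ℤ) * d - di * (7 * Y), -(7 * Yi * (l : ℤ)) * X + di] : Matrix (Fin 2) (Fin 2) ℤ) 0 0 *
          (w1 + 7 ^ 0 * X * w2) + (!![(l : ℤ) * d - Xi * (7 * Y), -((l : ℤ) * X) + Xi;
        7 * Yi * (l : ℤ) * d - di * (7 * Y), -(7 * Yi * (l : ℤ)) * X + di] : Matrix (Fin 2) (Fin 2) ℤ) 0 1 *
          (7 * Y * w1 + d * w2))
        ((!![(l : ℤ) * d - Xi * (7 * Y), -((l : ℤ) * X) + Xi;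
        7 * Yi * (l : ℤ) * d - di * (7 * Y), -(7 * Yi * (l : ℤ)) * X + di] : Matrix (Fin 2) (Fin 2) ℤ) 1 0 *
          (w1 + 7 ^ 0 * X * w2) + (!![(l : ℤ) * d - Xi * (7 * Y), -((l : ℤ) * X) + Xi;
        7 * Yi * (l : ℤ) * d - di * (7 * Y), -(7 * Yi * (l : ℤ)) * X + di] : Matrix (Fin 2) (Fin 2) ℤ) 1 1 *
          (7 * Y * w1 + d * w2)) =
        G ((l : ℤ) * w1 + 7 ^ 0 * Xi * w2) (7 * Yi * ((l : ℤ) * w1) + di * w2) := by
      intro w1 w2
      congr 1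
      · simp
        linear_combination ((l : ℤ) * w1 + Xi * w2) * hdet
      · simp
        linear_combination (7 * Yi * (l : ℤ) * w1 + di * w2) * hdet
    rw [k u1 u2, k v1 v2]
  · -- the other terms
    have hsum : ∀ f : ℤ → R, ∑ i : Fin l, f (e i) = ∑ j ∈ J, f j := by
      intro f
      rw [Equiv.sum_comp e (fun j : J => f j), Finset.sum_coe_sort J f]
    rw [← hsum]
    refine Finset.sum_congr rfl fun i _ => ?_
    rw [tr_j]
    have hE : edgeE7 0 (u1 + (e i : ℤ) * u2) (l * u2) (v1 + (e i : ℤ) * v2) (l * v2) G (xj (e i)) (yj (e i)) =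
        ep (sm (Xj (e i)) (Yj (e i)) (dj (e i))) •
          edge7 0 (u1 + (e i : ℤ) * u2) (l * u2) (v1 + (e i : ℤ) * v2) (l * v2) G (xj (e i)) (yj (e i)) :=
      edgeE_eq _ _ _ _ _ _ _
    have hr : edge7 0 (u1 + (e i : ℤ) * u2) (l * u2) (v1 + (e i : ℤ) * v2) (l * v2) G (xj (e i)) (yj (e i)) =
      G (u1 + (e i : ℤ) * u2 + 7 ^ 0 * Xj (e i) * ((l : ℤ) * u2))
        (7 * Yj (e i) * (u1 + (e i : ℤ) * u2) + dj (e i) * ((l : ℤ) * u2)) -
      G (v1 + (e i : ℤ) * v2 + 7 ^ 0 * Xj (e i) * ((l : ℤ) * v2))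
        (7 * Yj (e i) * (v1 + (e i : ℤ) * v2) + dj (e i) * ((l : ℤ) * v2)) := rfl
    have hs : eps (δ i.succ 0 0) (δ i.succ 0 1) (δ i.succ 1 0) (δ i.succ 1 1) =
        ep (DJ (Xj (e i)) (Yj (e i)) (dj (e i)) X Y d (e i) l) := rfl
    change _ = eps 1 (e i : ℤ) 0 l • edgeE7 0 (u1 + (e i : ℤ) * u2) (l * u2) (v1 + (e i : ℤ) * v2) (l * v2) G (xj (e i)) (yj (e i))
    rw [hE, hr, hs, ← smul_sub, smul_smul, smul_smul, ep_DJ _ _ _ _ _ _ _ _ (hdetj (e i)) hdet hlo,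
      hδs, DJ_eq]
    congr 1
    congr 1
    · congr 1
      · simp
        linear_combination (u1 + ((e i : ℤ) + Xj (e i) * (l : ℤ)) * u2) * hdet
      · simp
        linear_combination (7 * Yj (e i) * u1 +
          (7 * Yj (e i) * (e i : ℤ) + dj (e i) * (l : ℤ)) * u2) * hdet
    · congr 1
      · simp
        linear_combination (v1 + ((e i : ℤ) + Xj (e i) * (l : ℤ)) * v2) * hdet
      · simp
        linear_combination (7 * Yj (e i) * v1 +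
          (7 * Yj (e i) * (e i : ℤ) + dj (e i) * (l : ℤ)) * v2) * hdet

end Pool.Agent.Helper93.TL7
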