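import Pool.Agent.Helper14.TL7.StD

/-!
# Project TL (7,4), module Rel: the relations of order three between the two plane functions of a twisted symbol
-/

set_option autoImplicit false

namespace Pool.Agent.Helper93.TL7

open Pool.Agent.Helper4.TL Pool.Agent.Helper14.TL7 Pool.Agent.Helper76.TL7
open Pool.Agent.Helper76.S7 (edge7 rY7)
open Pool.Agent.Helper84.S7 (tr7)
open Pool.Agent.Helper14.CV (Homog EqC act Tl StFar StFex)

/-- The sign does not matter. -/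
private lemma rel_neg {R : Type} {G : ℤ → ℤ → R} (hG : Homog G) (X Y u1 u2 : ℤ)
    (hu : u1 ≠ 0 ∨ u2 ≠ 0) :
    G (-u1 + 7 ^ 0 * X * (-u2)) (7 * Y * (-u1) + (1 + 7 ^ (0 + 1) * X * Y) * (-u2)) =
      G (u1 + 7 ^ 0 * X * u2) (7 * Y * u1 + (1 + 7 ^ (0 + 1) * X * Y) * u2) := by
  have hne : (1 * u1 + X * u2 ≠ 0 ∨ (7 * Y) * u1 + (1 + 7 * X * Y) * u2 ≠ 0) :=
    Pool.Agent.Helper14.CV.ne_zero_of_det (a := 1) (b := X) (c := 7 * Y) (d := 1 + 7 * X * Y)
      (by ring_nf; norm_num) hu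
  have h := hG (-1) (u1 + 7 ^ 0 * X * u2) (7 * Y * u1 + (1 + 7 ^ (0 + 1) * X * Y) * u2)
    (by norm_num) (by
      rcases hne with h | h
      · left; intro h'; apply h; rw [← h']; ring
      · right; intro h'; apply h; rw [← h']; ring)
  rw [← h]
  congr 1 <;> ring

/-- REL: the plane functions of a twisted symbol satisfy the relations. -/
theorem hRel (ht : TTre) : TRel := by
  intro R _ r s G hG
  have k0 : (pfE G 0 : ZMod (7 ^ r) → ZMod (7 ^ s) → R) = edgeE7 0 1 0 0 1 G := by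
    funext x y; rfl
  have k1 : (pfE G 1 : ZMod (7 ^ r) → ZMod (7 ^ s) → R) = edgeE7 0 1 2 0 1 G := by
    funext x y; rfl
  refine ⟨fun x y => ?_, fun x y => ?_⟩
  · have h0 := ht R _ r s G hG 2 (-1) 1 (-3) 1 2 0 1 (by norm_num) (by simp) (by simp) x y
    have h1 := ht R _ r s G hG 3 (-1) 1 (-2) 1 2 0 1 (by norm_num) (by simp) (by simp) x y
    have hn := rel_neg hG.1 (x.val : ℤ) (rY7 0 x y) 1 2 (by simp)
    have hm := rel_neg hG.1 (x.val : ℤ) (rY7 0 x y) 1 3 (by simp)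
    norm_num at h0 h1
    rw [show eps 2 (-1) 7 (-3) = 1 by decide, one_smul] at h0
    rw [show eps 3 (-1) 7 (-2) = 1 by decide, one_smul] at h1
    show (pfE G 1 : ZMod (7 ^ r) → ZMod (7 ^ s) → R) x y + tr7 2 (-1) 1 (-3) (pfE G 1) x y +
      tr7 3 (-1) 1 (-2) (pfE G 1) x y = 0
    rw [k1, ← h0, ← h1]
    unfold edgeE7 edge7
    rw [hn, hm]
    simp only [smul_sub]
    abel
  · have h0 := ht R _ r s G hG 1 1 0 1 1 0 0 1 (by norm_num) (by simp) (by simp) x y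
    have h1 := ht R _ r s G hG 5 (-3) 1 (-4) 1 0 0 1 (by norm_num) (by simp) (by simp) x y
    have h2 := ht R _ r s G hG 5 2 1 3 1 0 0 1 (by norm_num) (by simp) (by simp) x y
    have h3 := ht R _ r s G hG 5 (-3) 1 (-4) 1 2 0 1 (by norm_num) (by simp) (by simp) x y
    have h4 := ht R _ r s G hG 4 (-3) 1 (-5) 1 0 0 1 (by norm_num) (by simp) (by simp) x y
    have h5 := ht R _ r s G hG 4 1 1 2 1 0 0 1 (by norm_num) (by simp) (by simp) x y
    have h6 := ht R _ r s G hG 4 (-3) 1 (-5) 1 2 0 1 (by norm_num) (by simp) (by simp) x y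
    have hn := rel_neg hG.1 (x.val : ℤ) (rY7 0 x y) 1 1 (by simp)
    have hm := rel_neg hG.1 (x.val : ℤ) (rY7 0 x y) 2 3 (by simp)
    norm_num at h0 h1 h2 h3 h4 h5 h6
    rw [show eps 1 1 0 1 = -1 by decide, neg_smul, one_smul] at h0
    rw [show eps 5 (-3) 7 (-4) = 1 by decide, one_smul] at h1 h3
    rw [show eps 5 2 7 3 = -1 by decide, neg_smul, one_smul] at h2
    rw [show eps 4 (-3) 7 (-5) = 1 by decide, one_smul] at h4 h6
    rw [show eps 4 1 7 2 = -1 by decide, neg_smul, one_smul] at h5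
    have h0' := neg_eq_iff_eq_neg.2 h0
    have h2' := neg_eq_iff_eq_neg.2 h2
    have h5' := neg_eq_iff_eq_neg.2 h5
    show (pfE G 0 : ZMod (7 ^ r) → ZMod (7 ^ s) → R) x y + tr7 1 1 0 1 (pfE G 0) x y -
      (pfE G 1 : ZMod (7 ^ r) → ZMod (7 ^ s) → R) x y +
      (tr7 5 (-3) 1 (-4) (pfE G 0) x y + tr7 5 2 1 3 (pfE G 0) x y -
        tr7 5 (-3) 1 (-4) (pfE G 1) x y) +
      (tr7 4 (-3) 1 (-5) (pfE G 0) x y + tr7 4 1 1 2 (pfE G 0) x y -
        tr7 4 (-3) 1 (-5) (pfE G 1) x y) = 0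
    rw [k0, k1, ← h0', ← h1, ← h2', ← h3, ← h4, ← h5', ← h6]
    unfold edgeE7 edge7
    rw [hn, hm]
    simp only [smul_sub]
    abel

end Pool.Agent.Helper93.TL7
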