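import Pool.Agent.Helper14.TL7.StD

/-!
# Project TL (7,4), module Uni: uniqueness of the twisted symbol
-/

set_option autoImplicit false

namespace Pool.Agent.Helper93.TL7

open Pool.Agent.Helper4.TL Pool.Agent.Helper14.TL7 Pool.Agent.Helper76.TL7
open Pool.Agent.Helper76.S7 (Pl7 S7PlA)
open Pool.Agent.Helper14.CV (Homog EqC act Tl StFar StFex)

private lemma un0 (n : ℕ) {a b c d : ℤ} (h : a * d - 7 * b * c = 1) :
    IsUnit (a : ZMod (7 ^ n)) := by
  rw [ZMod.coe_int_isUnit_iff_isCoprime]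
  push_cast
  exact IsCoprime.pow_left ⟨-(b * c), d, by linear_combination h⟩

private lemma dvd7' {n : ℤ} : (7 : ℤ) ∣ n ↔ (n : ZMod 7) = 0 :=
  (ZMod.intCast_zmod_eq_zero_iff_dvd n 7).symm

private lemma cls8 : ∀ r s : ZMod 7,
    r = 0 ∨ s = 0 ∨ r - s = 0 ∨ r + s = 0 ∨ r - 2 * s = 0 ∨ s + 2 * r = 0 ∨ 2 * r - s = 0 ∨
      2 * s + r = 0 := by decide

private lemma eps0 {R : Type} [AddCommGroup R] (a b c d : ℤ) (x y : R)
    (h : 0 = eps a b c d • (x - y)) : x = y := by
  have h1 : eps a b c d • (eps a b c d • (x - y)) = 0 := by rw [← h, smul_zero]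
  rw [smul_smul, eps_sq, one_smul] at h1
  exact sub_eq_zero.1 h1

/-- UNI. -/
theorem hUni (he : EEdg7) (hfar : StFar) : TUni := by
  intro R _ r s G hG hz
  have key : ∀ a b c d : ℤ, a * d - 7 * b * c = 1 →
      G a (7 * c) = G b d ∧ G (a + 2 * b) (7 * c + 2 * d) = G b d := by
    intro a b c d h
    have ha : IsUnit (a : ZMod (7 ^ r)) := un0 r h
    have h' : d * a - 7 * b * c = 1 := by linear_combination h
    have hd : IsUnit (d : ZMod (7 ^ s)) := un0 s h'
    have hp : Pl7 0 a b c d ((b : ZMod (7 ^ r)) * (a : ZMod (7 ^ r))⁻¹) ((c : ZMod (7 ^ s)) * (d : ZMod (7 ^ s))⁻¹) := by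
      refine ⟨by linear_combination h, ?_, ?_⟩
      · rw [mul_assoc, ZMod.inv_mul_of_unit _ ha, mul_one]
      · rw [mul_assoc, ZMod.inv_mul_of_unit _ hd, mul_one]
    have z0 := congrFun (congrFun (hz 0) ((b : ZMod (7 ^ r)) * (a : ZMod (7 ^ r))⁻¹)) ((c : ZMod (7 ^ s)) * (d : ZMod (7 ^ s))⁻¹)
    have z1 := congrFun (congrFun (hz 1) ((b : ZMod (7 ^ r)) * (a : ZMod (7 ^ r))⁻¹)) ((c : ZMod (7 ^ s)) * (d : ZMod (7 ^ s))⁻¹)
    have k0 := he R _ 0 r s G hG 1 0 0 1 (Or.inl one_ne_zero) (Or.inr one_ne_zero) _ _ a b c d hp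
    have k1 := he R _ 0 r s G hG 1 2 0 1 (Or.inl one_ne_zero) (Or.inr one_ne_zero) _ _ a b c d hp
    have z0' : edgeE7 0 1 0 0 1 G ((b : ZMod (7 ^ r)) * (a : ZMod (7 ^ r))⁻¹) ((c : ZMod (7 ^ s)) * (d : ZMod (7 ^ s))⁻¹) = 0 := z0
    have z1' : edgeE7 0 1 2 0 1 G ((b : ZMod (7 ^ r)) * (a : ZMod (7 ^ r))⁻¹) ((c : ZMod (7 ^ s)) * (d : ZMod (7 ^ s))⁻¹) = 0 := z1
    rw [z0'] at k0
    rw [z1'] at k1
    have e0 : a * 1 + 7 ^ 0 * b * 0 = a := by ring
    have e1 : 7 * c * 1 + d * 0 = 7 * c := by ring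
    have e2 : a * 0 + 7 ^ 0 * b * 1 = b := by ring
    have e3 : 7 * c * 0 + d * 1 = d := by ring
    have e4 : a * 1 + 7 ^ 0 * b * 2 = a + 2 * b := by ring
    have e5 : 7 * c * 1 + d * 2 = 7 * c + 2 * d := by ring
    rw [e0, e1, e2, e3] at k0
    rw [e2, e3, e4, e5] at k1
    exact ⟨eps0 _ _ _ _ _ _ k0, eps0 _ _ _ _ _ _ k1⟩
  have key1 : ∀ a b c d : ℤ, a * d - 7 * b * c = 1 → G (a + b) (7 * c + d) = G b d := by
    intro a b c d h
    rw [← (key a b c d h).1, (key a (a + b) c (7 * c + d) (by linear_combination h)).1]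
  -- the class of `4`: both values are the value at `(b, d)`
  have key2 : ∀ a b c d : ℤ, a * d - 7 * b * c = 1 →
      G (a + b) (7 * c + d) = G (a + 2 * b) (7 * c + 2 * d) := by
    intro a b c d h
    rw [key1 a b c d h, (key a b c d h).2]
  refine hfar R _ G hG.1 fun p q t u h => ?_
  -- rows `(p q; t u)`
  have hneg : G (-p) (-t) = G p t := by
    have n : p ≠ 0 ∨ t ≠ 0 := by
      by_contra hcon
      push Not at hcon
      rw [hcon.1, hcon.2] at h
      simp at h
    have := hG.1 (-1) p t (by norm_num) n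
    rwa [neg_one_mul, neg_one_mul] at this
  rcases cls8 (t : ZMod 7) (u : ZMod 7) with e | e | e | e | e | e | e | e
  · obtain ⟨c, rfl⟩ := dvd7'.2 e
    exact (key p q c u (by linear_combination h)).1
  · obtain ⟨c, rfl⟩ := dvd7'.2 e
    rw [(key q (-p) c (-t) (by linear_combination h)).1, hneg]
  · have : (7 : ℤ) ∣ t - u := dvd7'.2 (by push_cast; exact e)
    obtain ⟨c, hc⟩ := this
    have k := key1 (p - q) q c u (by linear_combination h + q * hc)
    have g1 : p - q + q = p := by ring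
    have g2 : 7 * c + u = t := by linear_combination -hc
    rwa [g1, g2] at k
  · have : (7 : ℤ) ∣ t + u := dvd7'.2 (by push_cast; exact e)
    obtain ⟨c, hc⟩ := this
    have k := key1 (q + p) (-p) c (-t) (by linear_combination h - p * hc)
    have g1 : q + p + -p = q := by ring
    have g2 : 7 * c + -t = u := by linear_combination -hc
    rw [g1, g2] at k
    rw [k, hneg]
  · have : (7 : ℤ) ∣ t - 2 * u := dvd7'.2 (by push_cast; exact e)
    obtain ⟨c, hc⟩ := this
    have k := (key (p - 2 * q) q c u (by linear_combination h + q * hc)).2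
    have g1 : p - 2 * q + 2 * q = p := by ring
    have g2 : 7 * c + 2 * u = t := by linear_combination -hc
    rwa [g1, g2] at k
  · have : (7 : ℤ) ∣ u + 2 * t := dvd7'.2 (by push_cast; exact e)
    obtain ⟨c, hc⟩ := this
    have k := (key (q + 2 * p) (-p) c (-t) (by linear_combination h - p * hc)).2
    have g1 : q + 2 * p + 2 * -p = q := by ring
    have g2 : 7 * c + 2 * -t = u := by linear_combination -hc
    rw [g1, g2] at k
    rw [k, hneg]
  · have : (7 : ℤ) ∣ 2 * t - u := dvd7'.2 (by push_cast; exact e)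
    obtain ⟨c, hc⟩ := this
    have k := key2 (2 * p - q) (q - p) c (u - t) (by linear_combination h + (q - p) * hc)
    have g1 : 2 * p - q + (q - p) = p := by ring
    have g2 : 7 * c + (u - t) = t := by linear_combination -hc
    have g3 : 2 * p - q + 2 * (q - p) = q := by ring
    have g4 : 7 * c + 2 * (u - t) = u := by linear_combination -hc
    rwa [g1, g2, g3, g4] at k
  · have : (7 : ℤ) ∣ 2 * u + t := dvd7'.2 (by push_cast; exact e)
    obtain ⟨c, hc⟩ := this
    have k := key2 (2 * q + p) (-p - q) c (-t - u) (by linear_combination h + (-p - q) * hc)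
    have g1 : 2 * q + p + (-p - q) = q := by ring
    have g2 : 7 * c + (-t - u) = u := by linear_combination -hc
    have g3 : 2 * q + p + 2 * (-p - q) = -p := by ring
    have g4 : 7 * c + 2 * (-t - u) = -t := by linear_combination -hc
    rw [g1, g2, g3, g4] at k
    rw [k, hneg]

end Pool.Agent.Helper93.TL7
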