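import Pool.Agent.Helper14.TL7.StD
import Pool.Agent.Helper93.TLE.Gen

/-!
# The rows of the Hecke operators (level `7^n`, twisted symbols), from checked lists
-/

set_option autoImplicit false

namespace Pool.Agent.Helper93.TL7

open Pool.Agent.Helper14.CV (Homog EqC act Tl)
open Pool.Agent.Helper84.S7 (e7 tr7 Fn7 opL op7 S7Trm)
open Pool.Agent.Helper4.S7 (Tm)
open Pool.Agent.Helper76.S7 (edge7 rY7)
open Pool.Agent.Helper76.TL7 (edgeE7)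
open Pool.Agent.Helper4.TL (eps SymE)
open Pool.Agent.Helper14.TL7 (TTre THkF pfE)
open Pool.Agent.Helper93.TLE (Chk row_of_chk)

/-- The value of a list of operators. -/
theorem opL_apply7 (L : List Tm) {q q' : ℕ} (F : Fn7 q q') (x : ZMod q) (y : ZMod q') :
    opL L F x y = (L.map fun t => t.1 • tr7 t.2.1 t.2.2.1 t.2.2.2.1 t.2.2.2.2 F x y).sum := by
  induction L with
  | nil => simp [opL]
  | cons t L ih =>
    have e : opL (t :: L) F x y = (((t.1 : ℤ) : ZMod 7) • op7 t.2.1 t.2.2.1 t.2.2.2.1 t.2.2.2.2) F x y +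
        opL L F x y := by
      simp [opL]
    rw [e, ih, List.map_cons, List.sum_cons, zsmul_eq_mul]
    rfl

/-- The row of `T_l` from a checked pair of lists. -/
theorem row7 (hf : THkF) (ht : TTre) (hm : S7Trm) (l : ℕ) (hl : l.Prime) (hl7 : l ≠ 7) (hl2 : l ≠ 2)
    (J : List ℤ) (hJn : J.Nodup) (hJl : J.length = l)
    (hJd : ∀ j ∈ J, ∀ j' ∈ J, (l : ℤ) ∣ j - j' → j = j') (hJe : ∀ j ∈ J, eps 1 j 0 l = 1)
    (u1 u2 v1 v2 : ℤ) (hu : u1 ≠ 0 ∨ u2 ≠ 0) (hv : v1 ≠ 0 ∨ v2 ≠ 0) (L0 L1 : List Tm)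
    (hc : Chk 7 l J 0 2 u1 u2 v1 v2 L0 L1)
    (r s : ℕ) (G : ℤ → ℤ → ZMod 7) (hG : SymE 7 r (s + 1) G) :
    (edgeE7 0 u1 u2 v1 v2 (Tl l (2 * 7 ^ r) G) : Fn7 (7 ^ r) (7 ^ s)) =
      opL L0 (pfE G 0) + opL L1 (pfE G 1) := by
  funext x y
  have hl0 : (l : ℤ) ≠ 0 := by exact_mod_cast hl.ne_zero
  have hpl : ¬ (7 : ℤ) ∣ (l : ℤ) := by
    intro h
    have h' : (7 : ℕ) ∣ l := by exact_mod_cast h
    exact hl7 (((Nat.prime_dvd_prime_iff_eq (by norm_num) hl).1 h').symm)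
  have hF := hf (ZMod 7) inferInstance r s l G J.toFinset hl hl7 hl2 hG
    (by rw [List.toFinset_card_of_nodup hJn, hJl])
    (fun j hj j' hj' => hJd j (List.mem_toFinset.1 hj) j' (List.mem_toFinset.1 hj'))
    u1 u2 v1 v2 hu hv x y
  rw [List.sum_toFinset _ hJn] at hF
  have key := row_of_chk (R := ZMod 7) (X := ZMod (7 ^ r) × ZMod (7 ^ s)) 7 l hl0 hpl
    (by norm_num) J
    (fun a b c d F z => tr7 a b c d (fun x y => F (x, y)) z.1 z.2)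
    (fun a b c d => ⟨fun z => (((b : ZMod (7 ^ r)) + d * z.1) * ((a : ZMod (7 ^ r)) + 7 * c * z.1)⁻¹,
      ((c : ZMod (7 ^ s)) + a * z.2) * ((d : ZMod (7 ^ s)) + 7 * b * z.2)⁻¹), fun F z => rfl⟩)
    (fun F a b c d a' b' c' d' ha hd ha' hd' => by
      funext z
      have h := (hm (ZMod 7) r s (fun x y => F (x, y))).1 a b c d a' b' c' d' ha hd ha' hd'
      exact congrFun (congrFun h z.1) z.2)
    (fun u1 u2 v1 v2 z => edgeE7 0 u1 u2 v1 v2 G z.1 z.2) G hG.1 0 2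
    (fun z => ⟨eps 1 (7 ^ 0 * (z.1.val : ℤ)) (7 * rY7 0 z.1 z.2) (1 + 7 ^ (0 + 1) * (z.1.val : ℤ) * rY7 0 z.1 z.2),
      1, 7 ^ 0 * (z.1.val : ℤ), 7 * rY7 0 z.1 z.2,
      1 + 7 ^ (0 + 1) * (z.1.val : ℤ) * rY7 0 z.1 z.2, by
        have : (1 : ℤ) * (1 + 7 ^ (0 + 1) * (z.1.val : ℤ) * rY7 0 z.1 z.2) -
          7 ^ 0 * (z.1.val : ℤ) * (7 * rY7 0 z.1 z.2) = 1 := by ring
        rw [this]; exact one_ne_zero,
      fun u1 u2 v1 v2 => by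
        unfold edgeE7 edge7
        simp only [one_mul]⟩)
    (fun a b c d e hd z => by
      have h := ht (ZMod 7) inferInstance r s G hG a b c d 1 e 0 1 hd (Or.inl one_ne_zero)
        (Or.inr one_ne_zero) z.1 z.2
      simp only [mul_one, mul_zero, zero_add] at h
      exact h)
    u1 u2 v1 v2 L0 L1 hc (x, y)
    (edgeE7 0 u1 u2 v1 v2 (Tl l (2 * 7 ^ r) G) x y) (by
      rw [hF]
      congr 2
      refine List.map_congr_left fun j hj => ?_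
      rw [hJe j hj, one_smul])
  rw [key]
  show _ = opL L0 (pfE G 0) x y + opL L1 (pfE G 1) x y
  rw [opL_apply7, opL_apply7]
  rfl

/-- The rows for `F0`, `F1`. -/
theorem rows7 (hf : THkF) (ht : TTre) (hm : S7Trm) (l : ℕ) (hl : l.Prime) (hl7 : l ≠ 7) (hl2 : l ≠ 2)
    (J : List ℤ) (hJn : J.Nodup) (hJl : J.length = l)
    (hJd : ∀ j ∈ J, ∀ j' ∈ J, (l : ℤ) ∣ j - j' → j = j') (hJe : ∀ j ∈ J, eps 1 j 0 l = 1)
    (T : Fin 2 → Fin 2 → List Tm) (h0 : Chk 7 l J 0 2 1 0 0 1 (T 0 0) (T 0 1))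
    (h1 : Chk 7 l J 0 2 1 2 0 1 (T 1 0) (T 1 1)) (r s : ℕ) (G : ℤ → ℤ → ZMod 7)
    (hG : SymE 7 r (s + 1) G) (i : Fin 2) :
    (pfE (Tl l (2 * 7 ^ r) G) i : Fn7 (7 ^ r) (7 ^ s)) = ∑ f : Fin 2, opL (T i f) (pfE G f) := by
  rw [Fin.sum_univ_two]
  fin_cases i
  · exact row7 hf ht hm l hl hl7 hl2 J hJn hJl hJd hJe 1 0 0 1 (Or.inl one_ne_zero) (Or.inr one_ne_zero)
      (T 0 0) (T 0 1) h0 r s G hG
  · exact row7 hf ht hm l hl hl7 hl2 J hJn hJl hJd hJe 1 2 0 1 (Or.inl one_ne_zero) (Or.inr one_ne_zero)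
      (T 1 0) (T 1 1) h1 r s G hG

end Pool.Agent.Helper93.TL7
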